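import Pool.Agent.Q278.GC.S4
import Pool.Agent.Q278.GC.ND1
import Pool.Agent.Q278.GC.ND2
import Pool.Agent.Q162.GC.K4
import Pool.Agent.Q128.GC.K2b
import Pool.Agent.Q65.GC.K5
import Pool.Agent.Q128.GC.Q2
import Pool.Agent.Q128.GC.Q3
import Pool.Agent.Q237.GC.QF
import Pool.Agent.Q153.GC.Q1
import Pool.Agent.Q153.GC.Q4

/-!
# The Gaussian multiplicative chaos of the zeros of zeta, without any hypothesis

For a test function `f` and `T ≤ t ≤ 2T` let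

  `stat f L T t = ∑_ρ f((γ - t) log T / (2πL)) - L ∫ f`,

the sum over all nontrivial zeros of zeta with multiplicity, and let
`cov f g = ∫ |ξ| Re(𝓕 f(ξ) conj 𝓕 g(ξ)) dξ`, the covariance of the sine process (the GUE prediction)
at large scales.  Fix a smooth step `H` (zero left of `-1`, one right of `1`), let
`fld H J x v = H(2^J (v - x)) - H(v - x)`, and consider the random field

  `X_J(x) = stat (fld H J x) L T t`,  `0 ≤ x ≤ 1`,  `t` uniform in `[T, 2T]`: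

the counting function of the zeros near the place `x`, smoothed at the scale `2^(-J)`, without the
scales above `1`, minus its mean.  (The unit of length is `L` mean gaps of the zeros.)  For a complex
number `α` and a continuous `φ` let

  `chaosZ = ∫_0^1 φ(x) exp(α X_J(x) - α²/2 cov(X_J(x), X_J(x))) dx`.

All statements hold for `exp(A J) ≤ L` and `exp(A J) L ≤ log T`: `L` is any mesoscopic scale and `2^J` may
be a small power of `min(L, log T / L)`.  No hypothesis is assumed.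

(1) The covariances of the field are `(1/(2π²)) log(1/max(|x-y|, 2^(-J))) + O(1)`: the field is
log-correlated.

(2) Universality, for ALL complex `α` and all test functions up to the size `exp(c J)`: the law of
`chaosZ` is within `K exp(-J)` of the law of the chaos of the Gaussian field with the same covariances
(in the bounded Lipschitz distance).

(3) Let `|α|² < 2π²` (the mean square phase), or let `α` be real and `|α| < 2π` (the whole subcritical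
phase of real chaos).  Then, as `J` tends to infinity, the law of `chaosZ` converges to a probability
measure `ν` with mean `∫ φ`, the law of the Gaussian multiplicative chaos: it is also the limit of the
laws of the chaos of the Gaussian fields.  For `|α|² < 2π²` the second moment of `ν` is the limit of
`∬ φ(x) conj φ(y) exp(|α|² cov(X_J(x), X_J(y))) dx dy`, and it is larger than `|∫ φ|²` if `α ≠ 0` and `φ`
is not identically zero on `[0,1]`: `ν` is not a point mass.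

The case of imaginary `α = iβ` covers the (smoothed) phases `exp(i β N)` of the counting function of the
zeros for all `|β| < √2 π`, for instance the parity `β = π`.

Proof.  (2) follows from a quantitative Gaussian approximation of the zeros in dimension growing like
`exp(A J)`; (3) from (2), and second moments or truncated second moments of the Gaussian chaos.
-/

set_option autoImplicit false

open Filter Topology MeasureTheory ProbabilityTheory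
open scoped FourierTransform ContDiff ComplexConjugate

namespace Pool.Agent.Results.MP_103a5c_nt.ChaosOfZeros

/-- multiplicity of `s` as a zero of the Riemann zeta function (order of vanishing at `s`) -/
noncomputable def zmult (s : ℂ) : ℕ := analyticOrderNatAt riemannZeta s

/-- the nontrivial zeros of `ζ` -/
def ZZ : Set ℂ := {s : ℂ | riemannZeta s = 0 ∧ 0 < s.re ∧ s.re < 1}

/-- the centred linear statistic at scale `L` -/
noncomputable def stat (f : ℝ → ℝ) (L T t : ℝ) : ℝ :=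
  ∑ᶠ s ∈ ZZ, (zmult s : ℝ) * f ((s.im - t) * Real.log T / (2 * Real.pi * L)) - L * ∫ x, f x

/-- the limiting covariance -/
noncomputable def cov (f g : ℝ → ℝ) : ℝ :=
  ∫ ξ : ℝ, |ξ| * (𝓕 (fun x => (f x : ℂ)) ξ * conj (𝓕 (fun x => (g x : ℂ)) ξ)).re

/-- the smoothed counting function at the place `x` with the scales between `2^(-J)` and `1` -/
noncomputable def fld (H : ℝ → ℝ) (J : ℕ) (x v : ℝ) : ℝ := H (2 ^ J * (v - x)) - H (v - x)

/-- the chaos of the zeros -/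
noncomputable def chaosZ (H : ℝ → ℝ) (α : ℂ) (φ : ℝ → ℂ) (J : ℕ) (L T t : ℝ) : ℂ :=
  ∫ x in (0 : ℝ)..1, φ x * Complex.exp (α * (stat (fld H J x) L T t : ℝ) -
    α ^ 2 / 2 * (cov (fld H J x) (fld H J x) : ℝ))

/-- the covariance matrix of the field at the places `k/n`, `0 ≤ k < n` -/
noncomputable def covG (H : ℝ → ℝ) (J n : ℕ) : Matrix (Fin n) (Fin n) ℝ :=
  Matrix.of fun k l => cov (fld H J ((k : ℝ) / n)) (fld H J ((l : ℝ) / n))

/-- the chaos of the Gaussian field (on the grid `k/n`) -/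
noncomputable def chaosG (H : ℝ → ℝ) (α : ℂ) (φ : ℝ → ℂ) (J n : ℕ) (w : EuclideanSpace ℝ (Fin n)) : ℂ :=
  ∑ k : Fin n, (∫ x in ((k : ℝ) / n)..(((k : ℝ) + 1) / n), φ x) *
    Complex.exp (α * (w k : ℝ) - α ^ 2 / 2 * (cov (fld H J ((k : ℝ) / n)) (fld H J ((k : ℝ) / n)) : ℝ))

lemma stat_eq (f : ℝ → ℝ) (L T t : ℝ) : stat f L T t = Q278.MC.st f L T t := by
  unfold stat Q278.MC.st Q278.MC.SZ Q278.MC.aP zmult ZZ
  have e : ∀ s : ℂ, (s.im - t) * Real.log T / (2 * Real.pi * L) =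
      Real.log T / (2 * Real.pi * L) * (s.im - t) := fun s => by ring
  simp only [e]

lemma chaosZ_eq (H : ℝ → ℝ) (α : ℂ) (φ : ℝ → ℂ) (J : ℕ) (L T t : ℝ) :
    chaosZ H α φ J L T t = Q278.GC.Mz H α φ J L T t := by
  unfold chaosZ Q278.GC.Mz
  simp only [stat_eq]
  rfl

lemma chaosG_eq (H : ℝ → ℝ) (α : ℂ) (φ : ℝ → ℂ) (J n : ℕ) (w : EuclideanSpace ℝ (Fin n)) :
    chaosG H α φ J n w = Q278.GC.Ch (Q278.GC.kj H) α φ J n w := rfl

lemma covG_eq (H : ℝ → ℝ) (J n : ℕ) : covG H J n = Q278.GC.KM (Q278.GC.kj H) J n := rfl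

/-- **The multiplicative chaos of the zeros of zeta.** -/
theorem result (H : ℝ → ℝ) (hH1 : ContDiff ℝ ∞ H) (hH2 : ∀ v, v ≤ -1 → H v = 0)
    (hH3 : ∀ v, 1 ≤ v → H v = 1) :
    (∃ C : ℝ, ∀ (J : ℕ) (x y : ℝ), |x - y| ≤ 1 →
      |cov (fld H J x) (fld H J y) -
        1 / (2 * Real.pi ^ 2) * Real.log (1 / max |x - y| (1 / 2 ^ J))| ≤ C) ∧
    (∀ b c : ℝ, 0 ≤ b → 0 ≤ c → ∃ A B K : ℝ, 0 < A ∧ 0 < B ∧ 0 < K ∧
      ∀ J : ℕ, 1 ≤ J → ∀ L T : ℝ, Real.exp (B * J) ≤ L → Real.exp (B * J) * L ≤ Real.log T → 0 < T →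
      ∀ n : ℕ, Real.exp (A * J) ≤ n → (n : ℝ) ≤ Real.exp (2 * A * J) →
      ∀ (α : ℂ) (φ : ℝ → ℂ), ‖α‖ ≤ b → Continuous φ →
        (∀ x ∈ Set.Icc (0 : ℝ) 1, ‖φ x‖ ≤ Real.exp (c * J)) →
      ∀ Φ : ℂ → ℝ, (∀ z, |Φ z| ≤ 1) → LipschitzWith 1 Φ →
        |1 / T * (∫ t in T..(2 * T), Φ (chaosZ H α φ J L T t)) -
          ∫ w, Φ (chaosG H α φ J n w) ∂(multivariateGaussian 0 (covG H J n))| ≤ K * Real.exp (-J)) ∧
    (∀ α : ℂ, (‖α‖ ^ 2 < 2 * Real.pi ^ 2 ∨ (α.im = 0 ∧ ‖α‖ < 2 * Real.pi)) →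
      ∃ A : ℝ, 0 < A ∧ ∀ φ : ℝ → ℂ, Continuous φ →
      ∃ ν : Measure ℂ, IsProbabilityMeasure ν ∧ Integrable (fun z => z) ν ∧
        ∫ z, z ∂ν = ∫ x in (0 : ℝ)..1, φ x ∧
        (∀ δ : ℝ, 0 < δ → ∃ J0 : ℕ, ∀ J : ℕ, J0 ≤ J → ∀ L T : ℝ, Real.exp (A * J) ≤ L →
          Real.exp (A * J) * L ≤ Real.log T → 0 < T →
          ∀ Φ : ℂ → ℝ, (∀ z, |Φ z| ≤ 1) → LipschitzWith 1 Φ →
          |1 / T * (∫ t in T..(2 * T), Φ (chaosZ H α φ J L T t)) - ∫ z, Φ z ∂ν| ≤ δ) ∧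
        (∀ δ : ℝ, 0 < δ → ∃ J0 : ℕ, ∀ J n : ℕ, J0 ≤ J → Real.exp (A * J) ≤ n →
          ∀ Φ : ℂ → ℝ, (∀ z, |Φ z| ≤ 1) → LipschitzWith 1 Φ →
          |∫ w, Φ (chaosG H α φ J n w) ∂(multivariateGaussian 0 (covG H J n)) - ∫ z, Φ z ∂ν| ≤ δ) ∧
        (‖α‖ ^ 2 < 2 * Real.pi ^ 2 → Integrable (fun z => ‖z‖ ^ 2) ν ∧
          Tendsto (fun J : ℕ => (∫ x in (0 : ℝ)..1, ∫ y in (0 : ℝ)..1, φ x * conj (φ y) *
            ((Real.exp (‖α‖ ^ 2 * cov (fld H J x) (fld H J y)) : ℝ) : ℂ)).re) atTop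
            (𝓝 (∫ z, ‖z‖ ^ 2 ∂ν)) ∧
          (α ≠ 0 → (∃ x ∈ Set.Icc (0 : ℝ) 1, φ x ≠ 0) →
            ‖∫ z, z ∂ν‖ ^ 2 < ∫ z, ‖z‖ ^ 2 ∂ν))) := by
  have hH : Q278.GC.Step H := ⟨hH1, hH2, hH3⟩
  simp only [chaosZ_eq, chaosG_eq, covG_eq]
  refine ⟨?_, fun b c hb hc => Q278.GC.chaos_univ hH hb hc, fun α hα => ?_⟩
  · obtain ⟨C, _, h⟩ := (Q162.GC.t_K4 Q128.GC.t_K1 Q128.GC3.t_K2b) H hH
    exact ⟨C, h⟩
  obtain ⟨C, hK⟩ := (Q65.GC.t_K5 Q128.GC.t_K1 Q128.GC3.t_K2b) H hH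
  have hC0 : 0 ≤ C := by linarith [hK.kb.C1]
  have hπ : 0 < 2 * Real.pi ^ 2 := by positivity
  set A : ℝ := 20 * (2 * Q278.GC.A1f ‖α‖ 1 C + 3) with hA
  have hge := Q278.GC.A1f_ge (norm_nonneg α) zero_le_one hK.kb.C1
  have hC2 : 0 ≤ ‖α‖ ^ 2 * C := by positivity
  have hAge : ‖α‖ ^ 2 * C + 2 ≤ A := by rw [hA]; linarith
  have hA0 : 0 < A := by linarith
  refine ⟨A, hA0, fun φ hφ => ?_⟩
  have hmono : ∀ J n : ℕ, Real.exp (A * J) ≤ n → Real.exp ((‖α‖ ^ 2 * C + 2) * J) ≤ n := fun J n hn =>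
    (Real.exp_le_exp.2 (mul_le_mul_of_nonneg_right hAge (Nat.cast_nonneg J))).trans hn
  by_cases h2 : ‖α‖ ^ 2 < 2 * Real.pi ^ 2
  · have hακ : ‖α‖ ^ 2 * (1 / (2 * Real.pi ^ 2)) < 1 := by
      rw [mul_one_div, div_lt_one hπ]
      exact h2
    obtain ⟨ν, h3, h4, h5, h6, h7, h8⟩ := Q278.GC.l2_gauss hK.kb hακ hφ
    refine ⟨ν, h3, h4, h5, Q278.GC.zeros_of_gauss hH hK.kb α hφ ν h6, fun δ hδ => ?_, fun _ =>
      ⟨h7, h8, fun hα0 h0 => ?_⟩⟩
    · obtain ⟨J0, hJ0⟩ := h6 δ hδ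
      exact ⟨J0, fun J n hJ hn => hJ0 J n hJ (hmono J n hn)⟩
    · rw [h5]
      exact Q278.GC.nondeg Q278.GC.t_ND1 Q278.GC.t_ND2 hH hK.kb hα0 hφ h0 h8
  · obtain ⟨him, hα2⟩ : α.im = 0 ∧ ‖α‖ < 2 * Real.pi := by
      rcases hα with h | h
      · exact absurd h h2
      · exact h
    set γ : ℝ := ‖α‖ with hγ
    have hγ0 : 0 < γ := by
      rcases (norm_nonneg α).lt_or_eq with h | h
      · exact h
      · exfalso
        apply h2
        have h0 : γ = 0 := h.symm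
        rw [h0]
        calc (0 : ℝ) ^ 2 = 0 := by norm_num
          _ < 2 * Real.pi ^ 2 := hπ
    have hγκ : γ ^ 2 * (1 / (2 * Real.pi ^ 2)) < 2 := by
      rw [mul_one_div, div_lt_iff₀ hπ]
      have := pow_lt_pow_left₀ hα2 hγ0.le (two_ne_zero)
      nlinarith
    obtain ⟨ν, h3, h4, h5, h6⟩ := Q278.GC.l1_gauss (Q153.GC.t_Q1 Q237.GC.t_GIR Q237.GC.t_TA) (Q153.GC.t_Q4 (Q128.GC5.t_Q2 Q237.GC.t_TA (Q237.GC.t_QF Q237.GC.t_GIR))
      (Q128.GC6.t_Q3 Q237.GC.t_TA (Q237.GC.t_QF Q237.GC.t_GIR))) Q237.GC.t_Q6 Q237.GC.t_Q8 hK hγ0 hγκ hφ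
    have hαγ : α = (γ : ℂ) ∨ α = -(γ : ℂ) := by
      have e1 : α = (α.re : ℂ) := by
        apply Complex.ext <;> simp [him]
      have e2 : γ = |α.re| := by
        rw [hγ, e1, Complex.norm_real, Real.norm_eq_abs]
        simp
      rcases abs_choice α.re with h | h
      · left
        rw [e2, h]
        exact e1
      · right
        rw [e2, h]
        rw [e1]
        simp
    have hG : ∀ δ : ℝ, 0 < δ → ∃ J0 : ℕ, ∀ J n : ℕ, J0 ≤ J → Real.exp ((γ ^ 2 * C + 2) * J) ≤ n →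
        ∀ Φ : ℂ → ℝ, (∀ z, |Φ z| ≤ 1) → LipschitzWith 1 Φ →
        |∫ w, Φ (Q278.GC.Ch (Q278.GC.kj H) α φ J n w)
          ∂(multivariateGaussian 0 (Q278.GC.KM (Q278.GC.kj H) J n)) - ∫ z, Φ z ∂ν| ≤ δ := by
      intro δ hδ
      obtain ⟨J0, hJ0⟩ := h6 δ hδ
      refine ⟨J0, fun J n hJ hn Φ hΦ1 hΦ => ?_⟩
      have h7 := hJ0 J n hJ hn Φ hΦ1 hΦ
      rcases hαγ with h | h
      · rw [h]; exact h7
      · rw [h, Q278.GC.ch_neg hK.kb (γ : ℂ) J n hΦ.continuous]; exact h7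
    refine ⟨ν, h3, h4, h5, Q278.GC.zeros_of_gauss hH hK.kb α hφ ν hG, fun δ hδ => ?_,
      fun h => absurd h h2⟩
    obtain ⟨J0, hJ0⟩ := hG δ hδ
    exact ⟨J0, fun J n hJ hn => hJ0 J n hJ (hmono J n hn)⟩

end Pool.Agent.Results.MP_103a5c_nt.ChaosOfZeros
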