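import Pool.Agent.Q70.OscK

/-!
# Pair correlation and the oscillation of the discrepancy

Assume the Riemann hypothesis.  Let `Disc T β` be the normalised discrepancy of the number of pairs
of zeros at normalised distance at most `β`.  Let `R` be an arbitrary unbounded set of positive
numbers (it may be as sparse as one likes) and let `c₀ > 0` (it may be as small as one likes).

(1) The pair correlation conjecture is equivalent to a bound for the number of sign changes of the
discrepancy in the intervals `(r, (1 + c₀) r)`, `r ∈ R`: for some `ρ < 2`, `M`, `C`, `c > 0` there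
is no `r ∈ R` and no finite system `r < β 0 < ... < β m < (1 + c₀) r` with
`m > ρ (β m - β 0) + M` along which, for arbitrarily large `T`, the discrepancy alternates in sign
with amplitude at least `C exp (-c β) + ε`.  In other words: if the conjecture fails, then the
discrepancy oscillates at least `2 - o(1)` times per mean spacing somewhere in *every* interval
`(r, (1 + c₀) r)` with `r` large enough (not only somewhere on the half line).

(2) It is equivalent to a one-sided bound for the number of pairs at distance at most `β`, for all
`β` in these intervals, where the side may depend on `β` and changes at most `ρ < 2` times per mean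
spacing.

Idea of the proof.  Let `E` be the discrepancy of a limit of the pair counting functions, extended
as an odd function; by Montgomery's theorem `x E(x)` has the spectral gap `(-1, 1)`.  For a set of
sign changes of upper density less than 2 in an interval we construct an entire function `G` of
exponential type less than `2 π`, of polynomial growth on the real axis, whose sign on the interval
is that of `x E(x)`: all its zeros are double except for the sign changes, and the zeros are so
distributed that their counting function differs from that of an arithmetic progression by a bounded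
amount (a product of `N` sine like functions whose zeros are moved by at most one step).  Then
`G(x) x E(x)` still has a spectral gap and has one sign on the interval, up to an exponentially
small error.  Hence its mass in the middle of the interval is exponentially small (test functions
with compactly supported Fourier transform and almost exponential decay), for two shifted copies of
`G` with disjoint zeros, so that the mass of `E` itself is exponentially small there.  Since this
holds for an unbounded set of intervals of length proportional to their distance from the origin,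
Beurling's gap theorem (in a form which allows an exponentially small mass in the gaps) gives
`E = 0`.  This is a local version of the Sturm–Hurwitz theorem.
-/

set_option autoImplicit false

open Filter Topology

namespace Pool.Agent.Results.MP_103a5c_nt.FewOscillations

/-- the nontrivial zeros of `ζ` with ordinate in `(0, T]` -/
def zeros (T : ℝ) : Set ℂ :=
  {s : ℂ | 0 < s.re ∧ s.re < 1 ∧ 0 < s.im ∧ s.im ≤ T ∧ riemannZeta s = 0}

/-- the multiplicity of `s` as a zero of `ζ` -/
noncomputable def mult (s : ℂ) : ℕ := analyticOrderNatAt riemannZeta s

/-- `N(T; α, β)`: the number of ordered pairs of zeros (counted with multiplicity, the diagonal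
included) with ordinates in `(0, T]` whose difference lies in `[2πα / log T, 2πβ / log T]` -/
noncomputable def N (T α β : ℝ) : ℕ :=
  ∑ᶠ s ∈ zeros T, ∑ᶠ s' ∈ {s' : ℂ | s' ∈ zeros T ∧
    2 * Real.pi * α / Real.log T ≤ s.im - s'.im ∧ s.im - s'.im ≤ 2 * Real.pi * β / Real.log T},
      mult s * mult s'

/-- `(T / 2π) log T` -/
noncomputable def X (T : ℝ) : ℝ := T / (2 * Real.pi) * Real.log T

/-- the constant of the conjecture -/
noncomputable def P (α β : ℝ) : ℝ :=
  (∫ u in α..β, (1 - (Real.sin (Real.pi * u) / (Real.pi * u)) ^ 2)) +
    if α ≤ 0 ∧ 0 ≤ β then 1 else 0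

/-- the pair correlation conjecture along the filter `l` (`l = atTop`: as `T → ∞`) -/
def PairCorrelation (l : Filter ℝ) : Prop := ∀ α β : ℝ, α < β →
  Asymptotics.IsEquivalent l (fun T => (N T α β : ℝ)) (fun T => P α β * X T)

/-- the discrepancy of the number of pairs at normalised distance at most `β` -/
noncomputable def Disc (T β : ℝ) : ℝ := (N T (-β) β : ℝ) / X T - P (-β) β

/-- For every `r ∈ R` with `r > 0`, every finite system `r < β 0 < ... < β m < (1 + c₀) r` with
`m > ρ (β m - β 0) + M`, every sign `s` and every `ε > 0`: for large `T` it is not true that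
`s (-1)^i Disc T (β i) ≥ C exp (-c β i) + ε` for all `i ≤ m`. -/
def FewOscillations (l : Filter ℝ) (R : Set ℝ) (c₀ ρ M C c : ℝ) : Prop :=
  ∀ r ∈ R ∩ Set.Ioi 0, ∀ (m : ℕ) (β : ℕ → ℝ) (s : ℝ), (s = 1 ∨ s = -1) → r < β 0 →
    β m < (1 + c₀) * r → (∀ i, i < m → β i < β (i + 1)) →
    ρ * (β m - β 0) + M < m → ∀ ε : ℝ, 0 < ε → ∀ᶠ T in l, ∃ i, i ≤ m ∧
      s * (-1) ^ i * Disc T (β i) < C * Real.exp (-(c * β i)) + ε

/-- **Oscillation of the pair correlation discrepancy.**  Assume the Riemann hypothesis and let
`l ≤ atTop`.  Let `R` be any set of reals which is not bounded above, and `c₀ > 0`.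

(1) The pair correlation conjecture along `l` holds if and only if
`FewOscillations l R c₀ ρ M C c` for some `ρ < 2`, `M`, `C`, `c > 0`.

(2) Let `n` be a nondecreasing integer valued function with `n y ≤ n x + ρ (y - x) + M` for
`0 < x ≤ y`, with `ρ < 2`.  The pair correlation conjecture along `l` holds if and only if for some
`C`, `c > 0`, all `r ∈ R`, `r > 0`, all `β` with `r < β < (1 + c₀) r` and all `ε > 0` one has
`(-1)^(n β) Disc T β ≤ C exp (-c β) + ε` for large `T`. -/
theorem result (hRH : RiemannHypothesis) (l : Filter ℝ) (hl : l ≤ atTop) (R : Set ℝ)
    (hR : ¬ BddAbove R) (c₀ : ℝ) (hc₀ : 0 < c₀) :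
    (PairCorrelation l ↔
      ∃ ρ M C c : ℝ, ρ < 2 ∧ 0 < c ∧ FewOscillations l R c₀ ρ M C c) ∧
    ∀ (n : ℝ → ℕ) (ρ M : ℝ), Monotone n → ρ < 2 →
      (∀ x y, 0 < x → x ≤ y → (n y : ℝ) ≤ n x + ρ * (y - x) + M) →
      (PairCorrelation l ↔ ∃ C c : ℝ, 0 < c ∧ ∀ r ∈ R, 0 < r →
        ∀ β : ℝ, r < β → β < (1 + c₀) * r → ∀ ε : ℝ, 0 < ε → ∀ᶠ T in l,
          (-1) ^ n β * Disc T β ≤ C * Real.exp (-(c * β)) + ε) :=
  Q70.Osc.mainL hRH hl hR hc₀

end Pool.Agent.Results.MP_103a5c_nt.FewOscillations
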