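import Pool.Agent.Q241.LR.C

/-!
# The lower half of the form factor and repulsion at the origin give pair correlation

Assume the Riemann hypothesis.  It is known (starting files) that upper bounds for the means of
Montgomery's form factor `F(α, T)` over bounded windows imply the pair correlation conjecture.  The
lower bounds alone do not seem to suffice: an excess of `F` corresponds to a positive density of the
pairs of zeros at distance zero.  We show that this is the only obstruction.

The pair correlation conjecture is equivalent to the conjunction of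

* (lower half) `∫_a^b F(α, T) dα ≥ b - a - ε` for all fixed `1 ≤ a < b` and `T` large,
* (repulsion) `limsup_T N(T; -e, e) / X(T) ≤ 1 + o(e)` as `e → 0`.

Quantitatively, if the lower half holds and the density of the pairs near the origin is at most `D`,
then `∫_a^b F(α, T) dα ≤ b - a + D + ε`.  Everything holds along an arbitrary filter.

Proof.  With the kernel `(sin πRx / πRx)²`, majorised by a dyadic staircase, the repulsion bounds
`∫ (R - |α|)⁺ F(α, T) dα` by `R² + 2DR + O(1)`; Montgomery's theorem gives the part `|α| < 1`; and the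
lower bounds for the windows, used on three ranges with the weights `R - α`, `b - α`, `R - α`, leave
`(R - b) ∫_a^b (F - 1) ≤ DR + O(1)`.  Then `R → ∞`.
-/

set_option autoImplicit false

open Filter Complex

namespace Pool.Agent.Results.MP_103a5c_nt.LowerHalfAndRepulsion

/-- the nontrivial zeros of `ζ` with ordinate in `(0, T]` -/
def zeros (T : ℝ) : Set ℂ :=
  {s : ℂ | 0 < s.re ∧ s.re < 1 ∧ 0 < s.im ∧ s.im ≤ T ∧ riemannZeta s = 0}

/-- the multiplicity of `s` as a zero of `ζ` -/
noncomputable def mult (s : ℂ) : ℕ := analyticOrderNatAt riemannZeta s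

/-- `N(T; α, β)`: the number of ordered pairs of zeros (counted with multiplicity, the diagonal
included) with ordinates in `(0, T]` whose difference lies in `[2πα / log T, 2πβ / log T]` -/
noncomputable def N (T α β : ℝ) : ℕ :=
  ∑ᶠ s ∈ zeros T, ∑ᶠ s' ∈ {s' : ℂ | s' ∈ zeros T ∧
    2 * Real.pi * α / Real.log T ≤ s.im - s'.im ∧ s.im - s'.im ≤ 2 * Real.pi * β / Real.log T},
      mult s * mult s'

/-- `(T / 2π) log T` -/
noncomputable def X (T : ℝ) : ℝ := T / (2 * Real.pi) * Real.log T

/-- the constant of the conjecture -/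
noncomputable def P (α β : ℝ) : ℝ :=
  (∫ u in α..β, (1 - (Real.sin (Real.pi * u) / (Real.pi * u)) ^ 2)) +
    if α ≤ 0 ∧ 0 ≤ β then 1 else 0

/-- the pair correlation conjecture along the filter `l` (for `l = atTop` it is Q1) -/
def PairCorrelation (l : Filter ℝ) : Prop := ∀ α β : ℝ, α < β →
  Asymptotics.IsEquivalent l (fun T => (N T α β : ℝ)) (fun T => P α β * X T)

/-- Montgomery's function `F(α, T)` -/
noncomputable def F (T α : ℝ) : ℂ :=
  (X T : ℂ)⁻¹ * ∑ᶠ s ∈ zeros T, ∑ᶠ s' ∈ zeros T, (mult s : ℂ) * (mult s' : ℂ) *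
    ((T : ℂ) ^ (I * α * (s.im - s'.im)) * (4 / (4 + (s.im - s'.im) ^ 2)))

/-- the lower half: the means of `F(α, T)` over the fixed windows to the right of `1` are at
least the expected ones, up to `o(1)` -/
def LowerHalf (l : Filter ℝ) : Prop := ∀ a b : ℝ, 1 ≤ a → a < b → ∀ ε : ℝ, 0 < ε →
  ∀ᶠ T in l, (b - a) - ε ≤ ∫ α in a..b, (F T α).re

/-- the density of the pairs of zeros near the origin is at most `D`: for every `η > 0` and every
small `e > 0` one has `N(T; -e, e) ≤ (1 + 2 (D + η) e) X(T)` eventually -/
def CloseDensity (l : Filter ℝ) (D : ℝ) : Prop := ∀ η : ℝ, 0 < η → ∃ e₀ : ℝ, 0 < e₀ ∧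
  ∀ e : ℝ, 0 < e → e ≤ e₀ → ∀ᶠ T in l, (N T (-e) e : ℝ) ≤ (1 + 2 * (D + η) * e) * X T

/-- **The lower half of the form factor and repulsion at the origin.**  Assume the Riemann
hypothesis and let `l ≤ atTop`.

(1) The pair correlation conjecture along `l` is equivalent to the lower half together with the
vanishing of the density of the pairs of zeros near the origin.

(2) If the lower half holds and that density is at most `D`, then the means of `F(α, T)` over the
fixed windows `[a, b]`, `1 ≤ a < b`, are at most `b - a + D + o(1)`. -/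
theorem result (hRH : RiemannHypothesis) (l : Filter ℝ) (hl : l ≤ atTop) :
    (PairCorrelation l ↔ LowerHalf l ∧ CloseDensity l 0) ∧
    (∀ D : ℝ, 0 ≤ D → LowerHalf l → CloseDensity l D → ∀ a b : ℝ, 1 ≤ a → a < b →
      ∀ ε : ℝ, 0 < ε → ∀ᶠ T in l, ∫ α in a..b, (F T α).re ≤ (b - a) + D + ε) := by
  have h10 : ∀ᶠ T in l, 10 ≤ T := hl (eventually_ge_atTop 10)
  have hF : ∀ T a b : ℝ, 10 ≤ T →
      ∫ α in a..b, (F T α).re = ∫ α in a..b, Pool.Agent.Y749.Rig.Fr T α := fun T a b hT =>
    Pool.Agent.Y749.Rig.P.mean_eq hT a b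
  have hlow : LowerHalf l ↔ Q241.LR.LowOne l := by
    unfold LowerHalf Q241.LR.LowOne
    refine forall_congr' fun a => forall_congr' fun b => forall_congr' fun _ =>
      forall_congr' fun _ => forall_congr' fun ε => forall_congr' fun _ => ?_
    constructor
    · intro h
      filter_upwards [h, h10] with T h1 hT
      rwa [hF T a b hT] at h1
    · intro h
      filter_upwards [h, h10] with T h1 hT
      rwa [hF T a b hT]
  have hd : ∀ D : ℝ, CloseDensity l D ↔ Q241.LR.Density l D := fun D => Iff.rfl
  have hm := Q241.LR.main hRH hl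
  refine ⟨?_, ?_⟩
  · rw [hlow, hd]
    exact hm.1
  · intro D hD h1 h2 a b ha hab ε hε
    filter_upwards [hm.2 D hD (hlow.1 h1) ((hd D).1 h2) a b ha hab ε hε, h10] with T h3 hT
    rwa [hF T a b hT]

end Pool.Agent.Results.MP_103a5c_nt.LowerHalfAndRepulsion
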