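import Pool.Agent.Q97.BG.PCa

/-!
# Pair correlation from a sparse set of distances

Assume the Riemann hypothesis.  The pair correlation conjecture holds as soon as it holds for the
windows `[α, β]` that lie inside the intervals `(a n, b n)` of a system with
`∑ ((b n - a n) / b n) ^ 2 = ∞`; for instance inside the intervals `(r, (1 + c) r)`, with a fixed
`c > 0` and `r` in an arbitrary unbounded set.

Proof.  Let `μ` be a limit of the normalised measures of the differences of ordinates and `h` the
difference of `μ` and the GUE prediction.  By Montgomery's theorem `h` has a spectral gap around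
the origin.  For a compactly supported spectral smoothing `g` of `h` the Cauchy transform of `g`
decays like `exp (-c |Im z|)`; in the middle of an interval of length `ℓ` in which `g` vanishes it
is therefore at most `exp (-c' ℓ)` (maximum principle, with the factor
`((z - m)² - r²) exp ((S/2) (r - (z - m)² / r))`).  Multiplying by the outer functions of these
intervals and by the Phragmén–Lindelöf principle, the Cauchy transform vanishes (Beurling's gap
theorem).
-/

set_option autoImplicit false

open Filter Complex Set

namespace Pool.Agent.Results.MP_103a5c_nt.SparseDistances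

/-- the nontrivial zeros of `ζ` with ordinate in `(0, T]` -/
def zeros (T : ℝ) : Set ℂ :=
  {s : ℂ | 0 < s.re ∧ s.re < 1 ∧ 0 < s.im ∧ s.im ≤ T ∧ riemannZeta s = 0}

/-- the multiplicity of `s` as a zero of `ζ` -/
noncomputable def mult (s : ℂ) : ℕ := analyticOrderNatAt riemannZeta s

/-- `N(T; α, β)`: the number of ordered pairs of zeros (counted with multiplicity, the diagonal
included) with ordinates in `(0, T]` whose difference lies in `[2πα / log T, 2πβ / log T]` -/
noncomputable def N (T α β : ℝ) : ℕ :=
  ∑ᶠ s ∈ zeros T, ∑ᶠ s' ∈ {s' : ℂ | s' ∈ zeros T ∧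
    2 * Real.pi * α / Real.log T ≤ s.im - s'.im ∧ s.im - s'.im ≤ 2 * Real.pi * β / Real.log T},
      mult s * mult s'

/-- `(T / 2π) log T` -/
noncomputable def X (T : ℝ) : ℝ := T / (2 * Real.pi) * Real.log T

/-- the constant of the conjecture -/
noncomputable def P (α β : ℝ) : ℝ :=
  (∫ u in α..β, (1 - (Real.sin (Real.pi * u) / (Real.pi * u)) ^ 2)) +
    if α ≤ 0 ∧ 0 ≤ β then 1 else 0

/-- the asymptotic formula of the conjecture for the window `[α, β]`, along the filter `l` -/
def Holds (l : Filter ℝ) (α β : ℝ) : Prop :=
  Asymptotics.IsEquivalent l (fun T => (N T α β : ℝ)) (fun T => P α β * X T)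

/-- **Pair correlation from sparse sets of distances.**  Assume the Riemann hypothesis and let
`l ≤ atTop` (for `l = atTop` the left hand sides are Q1).

(1) For pairwise disjoint intervals `(a n, b n)`, `0 < a n`, of length at least `lam > 0`, with
`∑ ((b n - a n) / b n) ^ 2 = ∞`, the pair correlation conjecture is equivalent to its restriction
to the windows inside these intervals.

(2) For `c > 0` and every unbounded set `R` of reals, it is equivalent to its restriction to the
windows inside the intervals `(r, (1 + c) r)`, `r ∈ R`. -/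
theorem result (hRH : RiemannHypothesis) (l : Filter ℝ) (hl : l ≤ atTop) :
    (∀ (a b : ℕ → ℝ) (lam : ℝ), 0 < lam → (∀ n, 0 < a n) → (∀ n, a n + lam ≤ b n) →
      (Pairwise fun n k => Disjoint (Ioo (a n) (b n)) (Ioo (a k) (b k))) →
      (¬ Summable fun n => ((b n - a n) / b n) ^ 2) →
      ((∀ α β : ℝ, α < β → Holds l α β) ↔
        ∀ n, ∀ α β : ℝ, a n < α → α < β → β < b n → Holds l α β)) ∧
    (∀ (c : ℝ) (R : Set ℝ), 0 < c → ¬ BddAbove R →
      ((∀ α β : ℝ, α < β → Holds l α β) ↔
        ∀ r ∈ R, ∀ α β : ℝ, r < α → α < β → β < (1 + c) * r → Holds l α β)) := by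
  refine ⟨fun a b lam hlam ha hlen hdisj hdiv => ⟨fun h n α β _ h2 _ => h α β h2, fun h => ?_⟩,
    fun c R hc hR => ⟨fun h r _ α β _ h2 _ => h α β h2, fun h => ?_⟩⟩
  · exact Q97.BG.mont_of_sparse hRH hl ha hlam hlen
      (fun n k hnk x h1 h2 h3 h4 => Set.disjoint_left.mp (hdisj hnk) ⟨h1, h2⟩ ⟨h3, h4⟩) hdiv h
  · exact Q97.BG.mont_of_lac hRH hl hR hc h

end Pool.Agent.Results.MP_103a5c_nt.SparseDistances
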